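import Mathlib

/-!
# The term 1 of a weakly consecutive sequence is at an end (MP_537c9d_co, Q1)

Let `σ` be a weakly consecutive sequence of length `k`, and suppose `σ 1 ≠ 1` and `σ k ≠ 1`.
Take primes `p ∣ σ 1` and `q ∣ σ k`.  Counting multiples gives `p ∣ k`, `q ∣ k` and `p ≠ q`; by
reversal we may assume `p < q`.  Put `K = k / p` and `m = K + 1`.  The multiples of `m` occupy one
residue class modulo `m` with exactly `p - 1` elements; since `p * m > k`, none of them can lie in
the class of the multiples of `p` (the positions `≡ 1 mod p`), unless `p ∣ m`, when all of them do.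
In both cases the class must be the one of `m - p + 1`, so the position
`(p - 1) * K` holds a multiple of `m`.  As `q ∣ K` it also holds a multiple of `q`, and `m`, `q` are
coprime, so `m * q ≤ k = p * K`, which is absurd.
-/

set_option autoImplicit false

namespace Pool.Agent.Results.MP_537c9d_co.OneAtAnEnd

/-- `σ` restricts to a permutation of `[k] = {1, …, k}` and is weakly consecutive: for all
`m, i, j ∈ [k]`, if `m ∣ σ i` and `m ∣ i - j` then `m ∣ σ j`. -/
def IsWCS (k : ℕ) (σ : ℕ → ℕ) : Prop :=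
  Set.BijOn σ (Set.Icc 1 k) (Set.Icc 1 k) ∧
    ∀ m ∈ Set.Icc 1 k, ∀ i ∈ Set.Icc 1 k, ∀ j ∈ Set.Icc 1 k,
      m ∣ σ i → (m : ℤ) ∣ (i : ℤ) - (j : ℤ) → m ∣ σ j

variable {k : ℕ} {σ : ℕ → ℕ}

lemma IsWCS.mem (h : IsWCS k σ) {i : ℕ} (h1 : 1 ≤ i) (h2 : i ≤ k) : 1 ≤ σ i ∧ σ i ≤ k := by
  have := h.1.mapsTo (Set.mem_Icc.2 ⟨h1, h2⟩)
  exact Set.mem_Icc.1 this

lemma IsWCS.inj (h : IsWCS k σ) {i j : ℕ} (h1 : 1 ≤ i) (h2 : i ≤ k) (h3 : 1 ≤ j) (h4 : j ≤ k)
    (e : σ i = σ j) : i = j :=
  h.1.injOn (Set.mem_Icc.2 ⟨h1, h2⟩) (Set.mem_Icc.2 ⟨h3, h4⟩) e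

/-- propagation along a residue class, in the form used below -/
lemma IsWCS.step (h : IsWCS k σ) {m i j : ℕ} (hm : 1 ≤ m) (hmk : m ≤ k) (h1 : 1 ≤ i) (h2 : i ≤ k)
    (h3 : 1 ≤ j) (h4 : j ≤ k) (hd : m ∣ σ i) (hij : i ≡ j [MOD m]) : m ∣ σ j := by
  refine h.2 m (Set.mem_Icc.2 ⟨hm, hmk⟩) i (Set.mem_Icc.2 ⟨h1, h2⟩) j (Set.mem_Icc.2 ⟨h3, h4⟩) hd ?_
  have := (Nat.modEq_iff_dvd.1 hij.symm)
  exact this

/-- the multiples of `m` lie in the first `k / m` positions of one class -/
lemma IsWCS.cls (h : IsWCS k σ) {m i j : ℕ} (hm : 1 ≤ m) (hmk : m ≤ k) (h1 : 1 ≤ i) (h2 : i ≤ k)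
    (h3 : 1 ≤ j) (h4 : j ≤ k) (mi : m ∣ σ i) (mj : m ∣ σ j) :
    ∃ t, t < k / m ∧ j = (i - 1) % m + 1 + t * m := by
  classical
  set a := (i - 1) % m + 1 with ha
  have ham : a ≤ m := by
    have := Nat.mod_lt (i - 1) (by omega : 0 < m)
    omega
  have hai : i ≡ a [MOD m] := by
    have h5 : (i - 1) % m ≡ i - 1 [MOD m] := Nat.mod_modEq _ _
    have h6 : (i - 1) % m + 1 ≡ i - 1 + 1 [MOD m] := h5.add_right 1
    have h7 : i - 1 + 1 = i := by omega
    rw [h7] at h6
    exact h6.symm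
  have hkm : k / m * m ≤ k := Nat.div_mul_le_self k m
  have hpos : ∀ t, t < k / m → 1 ≤ a + t * m ∧ a + t * m ≤ k := by
    intro t ht
    refine ⟨by omega, ?_⟩
    have h8 : (t + 1) * m ≤ k / m * m := Nat.mul_le_mul_right m ht
    have h9 : (t + 1) * m = t * m + m := by ring
    omega
  have hdv : ∀ t, t < k / m → m ∣ σ (a + t * m) := by
    intro t ht
    refine h.step hm hmk h1 h2 (hpos t ht).1 (hpos t ht).2 mi ?_
    refine hai.trans ?_
    have : a + t * m ≡ a + 0 [MOD m] := by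
      refine Nat.ModEq.add_left a ?_
      exact (Nat.modEq_zero_iff_dvd.2 (Dvd.intro_left t rfl))
    simpa using this.symm
  have hinj : Set.InjOn (fun t => σ (a + t * m) / m) (Finset.range (k / m) : Set ℕ) := by
    intro s hs t ht hst
    have hs' : s < k / m := by simpa using hs
    have ht' : t < k / m := by simpa using ht
    have h10 : σ (a + s * m) = σ (a + t * m) := by
      have e1 := Nat.div_mul_cancel (hdv s hs')
      have e2 := Nat.div_mul_cancel (hdv t ht')
      have e3 : σ (a + s * m) / m = σ (a + t * m) / m := hst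
      rw [← e1, ← e2, e3]
    have h11 := h.inj (hpos s hs').1 (hpos s hs').2 (hpos t ht').1 (hpos t ht').2 h10
    have h12 : s * m = t * m := by omega
    exact Nat.eq_of_mul_eq_mul_right (by omega : 0 < m) h12
  have hsub : (Finset.range (k / m)).image (fun t => σ (a + t * m) / m) ⊆ Finset.Icc 1 (k / m) := by
    intro v hv
    obtain ⟨t, ht, rfl⟩ := Finset.mem_image.1 hv
    have ht' : t < k / m := by simpa using ht
    have hb := h.mem (hpos t ht').1 (hpos t ht').2
    refine Finset.mem_Icc.2 ⟨?_, Nat.div_le_div_right hb.2⟩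
    exact (Nat.one_le_div_iff (by omega)).2 (Nat.le_of_dvd (by omega) (hdv t ht'))
  have hcard : ((Finset.range (k / m)).image (fun t => σ (a + t * m) / m)).card
      = (Finset.Icc 1 (k / m)).card := by
    rw [Finset.card_image_of_injOn hinj]
    simp
  have heq := Finset.eq_of_subset_of_card_le hsub (le_of_eq hcard.symm)
  have hb := h.mem h3 h4
  have hmem : σ j / m ∈ Finset.Icc 1 (k / m) := by
    refine Finset.mem_Icc.2 ⟨?_, Nat.div_le_div_right hb.2⟩
    exact (Nat.one_le_div_iff (by omega)).2 (Nat.le_of_dvd (by omega) mj)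
  rw [← heq] at hmem
  obtain ⟨t, ht, hte⟩ := Finset.mem_image.1 hmem
  have ht' : t < k / m := by simpa using ht
  refine ⟨t, ht', ?_⟩
  have h13 : σ (a + t * m) = σ j := by
    have e1 := Nat.div_mul_cancel (hdv t ht')
    have e2 := Nat.div_mul_cancel mj
    have e3 : σ (a + t * m) / m = σ j / m := hte
    rw [← e1, ← e2, e3]
  exact (h.inj (hpos t ht').1 (hpos t ht').2 h3 h4 h13).symm

lemma IsWCS.dvd_last (h : IsWCS k σ) (hk : 1 ≤ k) {q : ℕ} (hq : 1 ≤ q) (hd : q ∣ σ k) : q ∣ k := by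
  have hqk : q ≤ k := (Nat.le_of_dvd (h.mem hk le_rfl).1 hd).trans (h.mem hk le_rfl).2
  obtain ⟨t, ht, he⟩ := h.cls hq hqk hk le_rfl hk le_rfl hd hd
  have h1 : (k - 1) % q < q := Nat.mod_lt _ (by omega)
  have h2 : (t + 1) * q ≤ k / q * q := Nat.mul_le_mul_right q ht
  have h3 : (t + 1) * q = t * q + q := by ring
  have h4 : k / q * q ≤ k := Nat.div_mul_le_self k q
  exact Dvd.intro_left (k / q) (by omega)

lemma IsWCS.reverse (h : IsWCS k σ) : IsWCS k (fun i => σ (k + 1 - i)) := by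
  refine ⟨?_, ?_⟩
  · refine h.1.comp ⟨?_, ?_, ?_⟩
    · intro i hi
      have := Set.mem_Icc.1 hi
      exact Set.mem_Icc.2 ⟨by omega, by omega⟩
    · intro i hi j hj hij
      have h1 := Set.mem_Icc.1 hi
      have h2 := Set.mem_Icc.1 hj
      have h3 : k + 1 - i = k + 1 - j := hij
      omega
    · intro i hi
      have h1 := Set.mem_Icc.1 hi
      exact ⟨k + 1 - i, Set.mem_Icc.2 ⟨by omega, by omega⟩, by
        show k + 1 - (k + 1 - i) = i
        omega⟩
  · intro m hm i hi j hj hd hij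
    have h1 := Set.mem_Icc.1 hi
    have h2 := Set.mem_Icc.1 hj
    refine h.2 m hm (k + 1 - i) (Set.mem_Icc.2 ⟨by omega, by omega⟩) (k + 1 - j)
      (Set.mem_Icc.2 ⟨by omega, by omega⟩) hd ?_
    have e : ((k + 1 - i : ℕ) : ℤ) - ((k + 1 - j : ℕ) : ℤ) = -((i : ℤ) - (j : ℤ)) := by
      rw [Nat.cast_sub (by omega), Nat.cast_sub (by omega)]
      ring
    rw [e]
    exact (dvd_neg).2 hij

/-- the heart of the proof -/
lemma IsWCS.core (h : IsWCS k σ) (hk : 1 ≤ k) {p q : ℕ} (hp : p.Prime) (hq : q.Prime) (hpq : p < q)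
    (hp1 : p ∣ σ 1) (hqk : q ∣ σ k) : False := by
  have hp2 : 2 ≤ p := hp.two_le
  have hpk : p ∣ k := by
    have h1 := h.reverse.dvd_last hk (q := p) (by omega)
    have e : k + 1 - k = 1 := by omega
    simp only [e] at h1
    exact h1 hp1
  have hqk' : q ∣ k := h.dvd_last hk (by omega) hqk
  obtain ⟨K, rfl⟩ := hpk
  have hK1 : 1 ≤ K := by
    rcases Nat.eq_zero_or_pos K with h0 | h0
    · subst h0
      simp at hk
    · exact h0
  have hqK : q ∣ K := by
    rcases hq.dvd_mul.1 hqk' with h0 | h0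
    · have := (Nat.prime_dvd_prime_iff_eq hq hp).1 h0
      omega
    · exact h0
  have hKq : q ≤ K := Nat.le_of_dvd hK1 hqK
  obtain ⟨m, hm⟩ : ∃ m, m = K + 1 := ⟨_, rfl⟩
  have hpK : K + K ≤ p * K := by nlinarith
  have hmk : m ≤ p * K := by omega
  have hpm : p * m = p * K + p := by rw [hm]; ring
  obtain ⟨i0, hi0, hσ0⟩ := h.1.surjOn (Set.mem_Icc.2 ⟨by omega, hmk⟩ : m ∈ Set.Icc 1 (p * K))
  have hi1 := (Set.mem_Icc.1 hi0).1
  have hi2 := (Set.mem_Icc.1 hi0).2
  have hmi0 : m ∣ σ i0 := by rw [hσ0]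
  have hdiv : p * K / m = p - 1 := by
    have e : p * K = (m - p) + (p - 1) * m := by
      have e1 : (p - 1) * m + m = p * m := by
        obtain ⟨r, rfl⟩ : ∃ r, p = r + 1 := ⟨p - 1, by omega⟩
        simp
        ring
      omega
    rw [e, Nat.add_mul_div_right _ _ (by omega), Nat.div_eq_of_lt (by omega)]
    omega
  have hp1m : (p - 1) * m + m = p * m := by
    obtain ⟨r, rfl⟩ : ∃ r, p = r + 1 := ⟨p - 1, by omega⟩
    simp
    ring
  obtain ⟨a, ha⟩ : ∃ a, a = (i0 - 1) % m + 1 := ⟨_, rfl⟩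
  have ham : a ≤ m := by
    have := Nat.mod_lt (i0 - 1) (by omega : 0 < m)
    omega
  have ha1 : 1 ≤ a := by omega
  have hai : i0 ≡ a [MOD m] := by
    have h5 : (i0 - 1) % m ≡ i0 - 1 [MOD m] := Nat.mod_modEq _ _
    have h6 : (i0 - 1) % m + 1 ≡ i0 - 1 + 1 [MOD m] := h5.add_right 1
    have h7 : i0 - 1 + 1 = i0 := by omega
    rw [h7, ← ha] at h6
    exact h6.symm
  have hstep : ∀ j, a + j * m ≤ p * K → m ∣ σ (a + j * m) := by
    intro j hj
    refine h.step (by omega) hmk hi1 hi2 (by omega) hj hmi0 ?_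
    refine hai.trans ?_
    have : a + j * m ≡ a + 0 [MOD m] := by
      refine Nat.ModEq.add_left a ?_
      exact (Nat.modEq_zero_iff_dvd.2 (Dvd.intro_left j rfl))
    simpa using this.symm
  -- lower bound for `a`
  have hlow : m < a + p := by
    by_contra hc
    have h8 : a + (p - 1) * m ≤ p * K := by omega
    obtain ⟨t, ht, he⟩ := h.cls (by omega) hmk hi1 hi2 (by omega) h8 hmi0 (hstep (p - 1) h8)
    rw [hdiv] at ht
    rw [← ha] at he
    have h9 : (p - 1) * m = t * m := by omega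
    have := Nat.eq_of_mul_eq_mul_right (by omega : 0 < m) h9
    omega
  -- `a = m - p + 1`
  have hkey : a + p = m + 1 := by
    by_contra hne
    have hgt : m + 1 < a + p := by omega
    by_cases hpm' : p ∣ m
    · have h9 : p ∣ σ i0 := hpm'.trans hmi0
      have hpk' : p ≤ p * K := Nat.le_mul_of_pos_right p hK1
      obtain ⟨t, ht, he⟩ := h.cls (by omega) hpk' le_rfl hk hi1 hi2 hp1 h9
      have h10 : i0 ≡ 1 [MOD p] := by
        rw [he]
        have : (1 - 1) % p + 1 + t * p = 1 + t * p := by simp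
        rw [this]
        have : 1 + t * p ≡ 1 + 0 [MOD p] := by
          refine Nat.ModEq.add_left 1 ?_
          exact (Nat.modEq_zero_iff_dvd.2 (Dvd.intro_left t rfl))
        simpa using this
      have h11 : a ≡ 1 [MOD p] := (hai.of_dvd hpm').symm.trans h10
      have h12 : (p : ℤ) ∣ (a : ℤ) - 1 := by
        have := (Nat.modEq_iff_dvd.1 h11.symm)
        simpa using this
      have h13 : (p : ℤ) ∣ (m : ℤ) := by exact_mod_cast hpm'
      have h14 : (p : ℤ) ∣ (a : ℤ) - 1 - m + p := by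
        exact dvd_add (dvd_sub h12 h13) (dvd_refl _)
      have h15 : (a : ℤ) - 1 - m + p < p := by
        have : (a : ℤ) ≤ m := by exact_mod_cast ham
        linarith
      have h16 : 0 < (a : ℤ) - 1 - m + p := by
        have : (m : ℤ) + 1 < a + p := by exact_mod_cast hgt
        linarith
      have := Int.le_of_dvd h16 h14
      linarith
    · have hcop : Nat.Coprime m p := ((Nat.Prime.coprime_iff_not_dvd hp).2 hpm').symm
      -- find `j < p` with `a + j m ≡ 1 mod p`
      obtain ⟨j, hjp, hj⟩ : ∃ j, j < p ∧ a + j * m ≡ 1 [MOD p] := by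
        haveI : Fact p.Prime := ⟨hp⟩
        refine ⟨(((1 - a : ZMod p)) * (m : ZMod p)⁻¹).val, ZMod.val_lt _, ?_⟩
        rw [← ZMod.natCast_eq_natCast_iff]
        push_cast
        rw [ZMod.natCast_zmod_val]
        have hm0 : (m : ZMod p) ≠ 0 := by
          intro h0
          exact hpm' ((ZMod.natCast_eq_zero_iff m p).1 h0)
        field_simp
        ring
      have hjne : j ≠ p - 1 := by
        intro hjc
        subst hjc
        have h12 : (p : ℤ) ∣ ((a + (p - 1) * m : ℕ) : ℤ) - 1 := by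
          have := (Nat.modEq_iff_dvd.1 hj.symm)
          simpa using this
        have h13 : ((a + (p - 1) * m : ℕ) : ℤ) = a + p * m - m := by
          have h14 : a + (p - 1) * m + m = a + p * m := by omega
          have h15 : ((a + (p - 1) * m : ℕ) : ℤ) + m = a + p * m := by exact_mod_cast h14
          linarith
        rw [h13] at h12
        have h14 : (p : ℤ) ∣ (a : ℤ) - 1 - m + p := by
          have h15 : (a : ℤ) - 1 - m + p = (a + p * m - m - 1) - p * (m - 1) := by ring
          rw [h15]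
          exact dvd_sub h12 (Dvd.intro _ rfl)
        have h15 : (a : ℤ) - 1 - m + p < p := by
          have : (a : ℤ) ≤ m := by exact_mod_cast ham
          linarith
        have h16 : 0 < (a : ℤ) - 1 - m + p := by
          have : (m : ℤ) + 1 < a + p := by exact_mod_cast hgt
          linarith
        have := Int.le_of_dvd h16 h14
        linarith
      have hj2 : j + 1 ≤ p - 1 := by omega
      have h17 : a + j * m ≤ p * K := by
        have h18 : (j + 1) * m ≤ (p - 1) * m := Nat.mul_le_mul_right m hj2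
        have h19 : (j + 1) * m = j * m + m := by ring
        omega
      have h20 := hstep j h17
      have hpk' : p ≤ p * K := Nat.le_mul_of_pos_right p hK1
      have h21 : p ∣ σ (a + j * m) :=
        h.step (by omega) hpk' le_rfl hk (by omega) h17 hp1 hj.symm
      have h22 : m * p ∣ σ (a + j * m) := hcop.mul_dvd_of_dvd_of_dvd h20 h21
      have h23 := h.mem (i := a + j * m) (by omega) h17
      have h24 := Nat.le_of_dvd (by omega) h22
      have h25 : m * p = p * m := Nat.mul_comm m p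
      omega
  -- the position `(p - 1) K`
  have hy : a + (p - 2) * m = (p - 1) * K := by
    obtain ⟨r, rfl⟩ : ∃ r, p = r + 2 := ⟨p - 2, by omega⟩
    have e1 : r + 2 - 2 = r := by omega
    have e2 : r + 2 - 1 = r + 1 := by omega
    rw [e1, e2]
    have e3 : a + (r + 2) = K + 2 := by omega
    rw [hm]
    nlinarith
  have hyK : (p - 1) * K + K = p * K := by
    obtain ⟨r, rfl⟩ : ∃ r, p = r + 1 := ⟨p - 1, by omega⟩
    simp
    ring
  have h26 : a + (p - 2) * m ≤ p * K := by omega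
  have h27 := hstep (p - 2) h26
  have h28 : q ∣ σ (a + (p - 2) * m) := by
    refine h.step (by omega) (hKq.trans (by omega)) hk le_rfl (by omega) h26 hqk ?_
    rw [hy]
    refine (Nat.modEq_iff_dvd.2 ?_)
    have h29 : (((p - 1) * K : ℕ) : ℤ) - ((p * K : ℕ) : ℤ) = -(K : ℤ) := by
      have : (((p - 1) * K : ℕ) : ℤ) + K = ((p * K : ℕ) : ℤ) := by exact_mod_cast hyK
      linarith
    rw [h29]
    exact (dvd_neg).2 (by exact_mod_cast hqK)
  have hcop2 : Nat.Coprime m q := by
    rw [hm]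
    have h30 : Nat.Coprime (K + 1) K := by simp
    exact h30.coprime_dvd_right hqK
  have h31 : m * q ∣ σ (a + (p - 2) * m) := hcop2.mul_dvd_of_dvd_of_dvd h27 h28
  have h32 := h.mem (i := a + (p - 2) * m) (by omega) h26
  have h33 := Nat.le_of_dvd (by omega) h31
  have h34 : m * (p + 1) ≤ m * q := Nat.mul_le_mul_left m (by omega)
  have h35 : m * (p + 1) = p * m + m := by ring
  omega

/-- **MP_537c9d_co, Q1.**  For every `k ≥ 1` and every weakly consecutive sequence `σ` of length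
`k`, `σ 1 = 1` or `σ k = 1`. -/
theorem result (k : ℕ) (hk : 1 ≤ k) (σ : ℕ → ℕ) (hσ : IsWCS k σ) : σ 1 = 1 ∨ σ k = 1 := by
  by_contra hc
  push Not at hc
  obtain ⟨h1, h2⟩ := hc
  have m1 := hσ.mem le_rfl hk
  have m2 := hσ.mem hk le_rfl
  obtain ⟨p, hp, hp1⟩ := Nat.exists_prime_and_dvd h1
  obtain ⟨q, hq, hqk⟩ := Nat.exists_prime_and_dvd h2
  rcases lt_trichotomy p q with hlt | heq | hgt
  · exact hσ.core hk hp hq hlt hp1 hqk
  · subst heq
    have hpk : p ∣ k := hσ.dvd_last hk hp.one_lt.le hqk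
    have hpk' : p ≤ k := Nat.le_of_dvd hk hpk
    obtain ⟨t, ht, he⟩ := hσ.cls hp.one_lt.le hpk' le_rfl hk hk le_rfl hp1 hqk
    have h3 : (1 - 1) % p + 1 + t * p = 1 + t * p := by simp
    rw [h3] at he
    have h4 : p ∣ 1 := by
      have h5 : p ∣ 1 + t * p := he ▸ hpk
      exact (Nat.dvd_add_left (Dvd.intro_left t rfl)).1 h5
    exact hp.one_lt.ne' (Nat.dvd_one.1 h4)
  · refine hσ.reverse.core hk hq hp hgt ?_ ?_
    · show q ∣ σ (k + 1 - 1)
      simpa using hqk
    · show p ∣ σ (k + 1 - k)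
      have e : k + 1 - k = 1 := by omega
      rw [e]
      exact hp1

end Pool.Agent.Results.MP_537c9d_co.OneAtAnEnd
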